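import Mathlib

set_option autoImplicit false

open Complex Finset Filter Topology
open scoped Real

noncomputable section

namespace Pool.Agent.H497Z.Cos

def E (θ : ℝ) : ℂ := Complex.exp (I * ((2 * π * θ : ℝ) : ℂ))

lemma norm_E (θ : ℝ) : ‖E θ‖ = 1 := by
  unfold E; rw [mul_comm]; exact Complex.norm_exp_ofReal_mul_I _

lemma E_add (a b : ℝ) : E (a + b) = E a * E b := by
  unfold E; rw [← Complex.exp_add]; congr 1; push_cast; ring

lemma E_zero : E 0 = 1 := by simp [E]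

lemma E_int (k : ℤ) : E k = 1 := by
  unfold E
  have := Complex.exp_int_mul_two_pi_mul_I k
  rw [← this]; congr 1; push_cast; ring

lemma E_nat_mul (t : ℕ) (θ : ℝ) : E (t * θ) = E θ ^ t := by
  unfold E; rw [← Complex.exp_nat_mul]; congr 1; push_cast; ring

lemma re_E (θ : ℝ) : (E θ).re = Real.cos (2 * π * θ) := by
  unfold E; rw [mul_comm, Complex.exp_ofReal_mul_I_re]

lemma norm_E_sub (a b : ℝ) : ‖E a - E b‖ ≤ 2 * π * |a - b| := by
  have h : E a - E b = E b * (E (a - b) - 1) := by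
    rw [mul_sub, ← E_add]; simp
  rw [h, norm_mul, norm_E, one_mul]
  have := Real.norm_exp_I_mul_ofReal_sub_one_le (x := 2 * π * (a - b))
  unfold E
  refine this.trans (le_of_eq ?_)
  rw [Real.norm_eq_abs, abs_mul, abs_of_pos (by positivity : (0:ℝ) < 2 * π)]

lemma norm_E_sub_one_ge (θ : ℝ) (k : ℤ) (h : |θ - k| ≤ 1 / 2) : 4 * |θ - k| ≤ ‖E θ - 1‖ := by
  have h1 : E θ = E (θ - k) := by
    conv_lhs => rw [show θ = (θ - k) + k by ring]
    rw [E_add, E_int, mul_one]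
  rw [h1]
  unfold E
  rw [Complex.norm_exp_I_mul_ofReal_sub_one, Real.norm_eq_abs, abs_mul]
  have h2 : |2 * π * (θ - k) / 2| ≤ π / 2 := by
    rw [show 2 * π * (θ - k) / 2 = π * (θ - k) by ring, abs_mul, abs_of_pos Real.pi_pos]
    nlinarith [Real.pi_pos]
  have h3 := Real.mul_abs_le_abs_sin h2
  rw [show 2 * π * (θ - k) / 2 = π * (θ - k) by ring, abs_mul, abs_of_pos Real.pi_pos] at h3
  rw [show 2 * π * (θ - k) / 2 = π * (θ - k) by ring]
  have h4 : 2 / π * (π * |θ - k|) = 2 * |θ - k| := by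
    field_simp
  rw [h4] at h3
  simp only [abs_two]
  linarith

/-- the oscillating factor -/
def w (n : ℕ) : ℂ := E ((3 * n - 1) / 8)

lemma norm_w (n : ℕ) : ‖w n‖ = 1 := norm_E _

lemma w_succ (n : ℕ) : w (n + 1) = E (3 / 8) * w n := by
  unfold w; rw [← E_add]; congr 1; push_cast; ring

lemma one_le_norm_om : 1 ≤ ‖E (3 / 8) - 1‖ := by
  have := norm_E_sub_one_ge (3 / 8) 0 (by norm_num [abs_of_pos])
  norm_num [abs_of_pos] at this
  linarith

lemma abel_id (g : ℕ → ℂ) (a b : ℕ) (hab : a ≤ b) :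
    (E (3 / 8) - 1) * ∑ n ∈ Ico a b, w n * g n =
      w b * g b - w a * g a - ∑ n ∈ Ico a b, w (n + 1) * (g (n + 1) - g n) := by
  induction b, hab using Nat.le_induction with
  | base => simp
  | succ b hab ih =>
    rw [sum_Ico_succ_top hab, sum_Ico_succ_top hab, mul_add, ih, w_succ]
    ring

lemma abel_bound (g : ℕ → ℂ) (a b : ℕ) (hab : a ≤ b) :
    ‖∑ n ∈ Ico a b, w n * g n‖ ≤ ‖g a‖ + ‖g b‖ + ∑ n ∈ Ico a b, ‖g (n + 1) - g n‖ := by
  have h1 := abel_id g a b hab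
  have h2 : ‖∑ n ∈ Ico a b, w n * g n‖ ≤ ‖(E (3 / 8) - 1) * ∑ n ∈ Ico a b, w n * g n‖ := by
    rw [norm_mul]
    exact le_mul_of_one_le_left (norm_nonneg _) one_le_norm_om
  refine h2.trans ?_
  rw [h1]
  refine (norm_sub_le _ _).trans ?_
  gcongr
  · refine (norm_sub_le _ _).trans ?_
    rw [norm_mul, norm_mul, norm_w, norm_w]; linarith
  · refine (norm_sum_le _ _).trans (le_of_eq ?_)
    refine sum_congr rfl fun n _ => ?_
    rw [norm_mul, norm_w, one_mul]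

lemma step_bound (F : ℕ → ℂ) (K : ℝ) (n : ℕ) (hn : 1 ≤ n) (h1 : ‖F (n + 1)‖ ≤ 1)
    (h2 : ‖F (n + 1) - F n‖ ≤ K / n) :
    ‖F (n + 1) / (Real.sqrt ((n + 1 : ℕ) : ℝ) : ℂ) - F n / (Real.sqrt n : ℂ)‖
      ≤ (K + 1) * (1 / (n : ℝ) ^ (3 / 2 : ℝ)) := by
  have hn0 : (0 : ℝ) < n := by exact_mod_cast hn
  set s := Real.sqrt n with hs
  set s' := Real.sqrt ((n + 1 : ℕ) : ℝ) with hs'
  have hs0 : 0 < s := Real.sqrt_pos.2 hn0
  have hss : s * s = n := Real.mul_self_sqrt hn0.le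
  have hss' : s' * s' = n + 1 := by
    rw [hs', Real.mul_self_sqrt (by positivity)]; push_cast; ring
  have hle : s ≤ s' := Real.sqrt_le_sqrt (by push_cast; linarith)
  have hs'0 : 0 < s' := lt_of_lt_of_le hs0 hle
  have hpow : (n : ℝ) ^ (3 / 2 : ℝ) = n * s := by
    rw [hs, Real.sqrt_eq_rpow, show (3 / 2 : ℝ) = 1 + 1 / 2 by norm_num, Real.rpow_add hn0,
      Real.rpow_one]
  have hid : F (n + 1) / (s' : ℂ) - F n / (s : ℂ) =
      (F (n + 1) - F n) * ((1 / s : ℝ) : ℂ) - F (n + 1) * ((1 / s - 1 / s' : ℝ) : ℂ) := by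
    push_cast; ring
  rw [hid, hpow]
  refine (norm_sub_le _ _).trans ?_
  rw [norm_mul, norm_mul, Complex.norm_real, Complex.norm_real, Real.norm_eq_abs,
    Real.norm_eq_abs]
  have h3 : 0 ≤ 1 / s - 1 / s' := by
    rw [sub_nonneg]; exact one_div_le_one_div_of_le hs0 hle
  have h4 : 1 / s - 1 / s' ≤ 1 / (n * s) := by
    rw [div_sub_div _ _ hs0.ne' hs'0.ne', div_le_div_iff₀ (by positivity) (by positivity)]
    have h5 : (s' - s) * (s' + s) = 1 := by nlinarith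
    have h6 : (s' - s) * s ≤ 1 := by nlinarith
    rw [← hss]
    nlinarith [mul_pos hs0 hs0, mul_le_mul_of_nonneg_left h6 (mul_pos hs0 hs0).le,
      mul_le_mul_of_nonneg_left hle hs0.le]
  rw [abs_of_pos (by positivity : 0 < 1 / s), abs_of_nonneg h3]
  have h7 : ‖F (n + 1) - F n‖ * (1 / s) ≤ K * (1 / (n * s)) := by
    calc _ ≤ K / n * (1 / s) := by gcongr
      _ = _ := by field_simp
  have h8 : ‖F (n + 1)‖ * (1 / s - 1 / s') ≤ 1 / (n * s) := by
    calc _ ≤ 1 * (1 / s - 1 / s') := by gcongr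
      _ ≤ _ := by linarith
  linarith

lemma summable_Z : Summable (fun n : ℕ => 1 / (n : ℝ) ^ (3 / 2 : ℝ)) :=
  Real.summable_one_div_nat_rpow.2 (by norm_num)

def Z : ℝ := ∑' n : ℕ, 1 / (n : ℝ) ^ (3 / 2 : ℝ)

lemma sum_le_Z (s : Finset ℕ) : ∑ n ∈ s, 1 / (n : ℝ) ^ (3 / 2 : ℝ) ≤ Z :=
  summable_Z.sum_le_tsum s (fun n _ => by positivity)

/-- convergence of the series -/
lemma converges (y : ℝ) : ∃ S : ℂ, Tendsto
    (fun N : ℕ => ∑ n ∈ Ico 1 (N + 1), w n * (E (y / n) / (Real.sqrt n : ℂ))) atTop (𝓝 S) := by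
  set g : ℕ → ℂ := fun n => E (y / n) / (Real.sqrt n : ℂ) with hg
  have hom : E (3 / 8) - 1 ≠ 0 := by
    intro h
    have := one_le_norm_om
    rw [h, norm_zero] at this; linarith
  have hsum : Summable (fun n : ℕ => w (n + 1 + 1) * (g (n + 1 + 1) - g (n + 1))) := by
    refine Summable.of_norm_bounded
      (g := fun n : ℕ => (2 * π * |y| + 1) * (1 / ((n + 1 : ℕ) : ℝ) ^ (3 / 2 : ℝ))) ?_ ?_
    · exact ((summable_nat_add_iff 1).2 summable_Z).mul_left _
    · intro n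
      rw [norm_mul, norm_w, one_mul]
      refine step_bound (fun n => E (y / n)) _ (n + 1) (by omega) (norm_E _).le ?_
      refine (norm_E_sub _ _).trans ?_
      have hn : (0 : ℝ) < ((n + 1 : ℕ) : ℝ) := by positivity
      have : y / ((n + 1 + 1 : ℕ) : ℝ) - y / ((n + 1 : ℕ) : ℝ)
          = - (y * (1 / (((n + 1 : ℕ) : ℝ) * ((n + 1 + 1 : ℕ) : ℝ)))) := by
        push_cast; field_simp; ring
      rw [this, abs_neg, abs_mul, abs_of_pos (by positivity : (0:ℝ) <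
        1 / (((n + 1 : ℕ) : ℝ) * ((n + 1 + 1 : ℕ) : ℝ))), mul_div_assoc]
      gcongr
      rw [div_eq_mul_one_div |y|]
      gcongr
      have : (1 : ℝ) ≤ ((n + 1 + 1 : ℕ) : ℝ) := by exact_mod_cast (by omega)
      nlinarith
  have h0 : Tendsto (fun N : ℕ => w (N + 1) * g (N + 1)) atTop (𝓝 0) := by
    rw [tendsto_zero_iff_norm_tendsto_zero]
    have : (fun N : ℕ => ‖w (N + 1) * g (N + 1)‖) =
        fun N : ℕ => (Real.sqrt ((N + 1 : ℕ) : ℝ))⁻¹ := by
      ext N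
      simp only [hg, norm_mul, norm_w, norm_div, norm_E, Complex.norm_real, Real.norm_eq_abs,
        abs_of_nonneg (Real.sqrt_nonneg _), one_mul, one_div]
    rw [this]
    refine tendsto_inv_atTop_zero.comp ?_
    refine Real.tendsto_sqrt_atTop.comp ?_
    exact tendsto_natCast_atTop_atTop.comp (tendsto_add_atTop_nat 1)
  have h1 := hsum.hasSum.tendsto_sum_nat
  refine ⟨(E (3 / 8) - 1)⁻¹ * (0 - w 1 * g 1 -
    ∑' n : ℕ, w (n + 1 + 1) * (g (n + 1 + 1) - g (n + 1))), ?_⟩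
  have h2 := ((h0.sub_const (w 1 * g 1)).sub h1).const_mul (E (3 / 8) - 1)⁻¹
  refine h2.congr fun N => ?_
  have h3 := abel_id g 1 (N + 1) (by omega)
  rw [sum_Ico_eq_sum_range (fun n => w (n + 1) * (g (n + 1) - g n))] at h3
  simp only [Nat.add_sub_cancel, add_comm 1] at h3
  rw [← h3, ← mul_assoc, inv_mul_cancel₀ hom, one_mul]

end Pool.Agent.H497Z.Cos
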