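import Pool.Agent.H497Z.CosA

set_option autoImplicit false

open Complex Finset Filter Topology
open scoped Real

noncomputable section

namespace Pool.Agent.H497Z.Cos

def G (T : ℕ) (θ : ℝ) : ℂ := ∑ t ∈ range T, E (((t + 1 : ℕ) : ℝ) * θ)

def D (T : ℕ) (θ : ℝ) : ℂ := G T θ / T

lemma norm_G_le (T : ℕ) (θ : ℝ) : ‖G T θ‖ ≤ T := by
  unfold G
  refine (norm_sum_le _ _).trans (le_of_eq ?_)
  simp [norm_E]

lemma norm_D_le (T : ℕ) (θ : ℝ) : ‖D T θ‖ ≤ 1 := by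
  unfold D
  rw [norm_div, Complex.norm_natCast]
  exact div_le_one_of_le₀ (norm_G_le T θ) (by positivity)

lemma G_geom (T : ℕ) (θ : ℝ) : (E θ - 1) * G T θ = E (((T + 1 : ℕ) : ℝ) * θ) - E θ := by
  unfold G
  induction T with
  | zero => simp
  | succ T ih =>
    rw [sum_range_succ, mul_add, ih, E_nat_mul, E_nat_mul]
    ring

lemma D_int (T : ℕ) (hT : 1 ≤ T) (k : ℕ) : D T k = 1 := by
  unfold D G
  have : ∀ t ∈ range T, E (((t + 1 : ℕ) : ℝ) * (k : ℝ)) = 1 := by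
    intro t _
    have := E_int (((t + 1) * k : ℕ) : ℤ)
    rw [← this]; congr 1; push_cast; ring
  rw [sum_congr rfl this]
  have : (T : ℂ) ≠ 0 := by exact_mod_cast (by omega)
  simp [this]

lemma G_small (T : ℕ) (θ : ℝ) : ‖E θ - 1‖ * ‖G T θ‖ ≤ 2 := by
  rw [← norm_mul, G_geom]
  refine (norm_sub_le _ _).trans ?_
  rw [norm_E, norm_E]; norm_num

lemma D_nondvd (M n T : ℕ) (hn : 1 ≤ n) (hT : 1 ≤ T) (h : ¬ n ∣ M) :
    ‖D T ((M : ℝ) / n)‖ ≤ n / (2 * T) := by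
  have hn0 : (0 : ℝ) < n := by exact_mod_cast hn
  have hT0 : (0 : ℝ) < T := by exact_mod_cast hT
  set θ : ℝ := (M : ℝ) / n with hθ
  have h1 := norm_E_sub_one_ge θ (round θ) (abs_sub_round θ)
  have h2 : 1 / (n : ℝ) ≤ |θ - round θ| := by
    have h3 : θ - round θ = (((M : ℤ) - round θ * n : ℤ) : ℝ) / n := by
      rw [hθ]; push_cast; field_simp
    have h4 : ((M : ℤ) - round θ * n : ℤ) ≠ 0 := by
      intro h0
      apply h
      have : (n : ℤ) ∣ (M : ℤ) := ⟨round θ, by linarith⟩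
      exact_mod_cast this
    rw [h3, abs_div, abs_of_pos hn0]
    gcongr
    have := Int.one_le_abs h4
    exact_mod_cast this
  have h5 := G_small T θ
  have h6 : 4 / (n : ℝ) * ‖G T θ‖ ≤ 2 := by
    refine le_trans ?_ h5
    gcongr
    calc 4 / (n : ℝ) = 4 * (1 / n) := by ring
      _ ≤ _ := by linarith
  unfold D
  rw [norm_div, Complex.norm_natCast, div_le_div_iff₀ hT0 (by positivity)]
  rw [div_mul_eq_mul_div, div_le_iff₀ hn0] at h6
  nlinarith

lemma G_diff (T : ℕ) (hT : 1 ≤ T) (a b : ℝ) :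
    ‖E a - 1‖ * ‖G T a - G T b‖ ≤ 8 * π * T * |a - b| := by
  have hT1 : (1 : ℝ) ≤ T := by exact_mod_cast hT
  have hid : (E a - 1) * (G T a - G T b) =
      (E (((T + 1 : ℕ) : ℝ) * a) - E (((T + 1 : ℕ) : ℝ) * b)) - (E a - E b)
        - (E a - E b) * G T b := by
    have h1 := G_geom T a
    have h2 := G_geom T b
    linear_combination h1 - h2
  rw [← norm_mul, hid]
  have h1 := norm_E_sub (((T + 1 : ℕ) : ℝ) * a) (((T + 1 : ℕ) : ℝ) * b)
  rw [← mul_sub, abs_mul, abs_of_pos (by positivity : (0:ℝ) < ((T + 1 : ℕ) : ℝ))] at h1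
  push_cast at h1
  have h2 := norm_E_sub a b
  have h3 : ‖(E a - E b) * G T b‖ ≤ 2 * π * |a - b| * T := by
    rw [norm_mul]
    exact mul_le_mul h2 (norm_G_le T b) (norm_nonneg _) (by positivity)
  have h4 := norm_sub_le (E (((T + 1 : ℕ) : ℝ) * a) - E (((T + 1 : ℕ) : ℝ) * b) - (E a - E b))
    ((E a - E b) * G T b)
  have h5 := norm_sub_le (E (((T + 1 : ℕ) : ℝ) * a) - E (((T + 1 : ℕ) : ℝ) * b)) (E a - E b)
  push_cast at h4 h5 ⊢
  have h6 : 0 ≤ π * |a - b| := by positivity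
  nlinarith [mul_le_mul_of_nonneg_left hT1 h6]

lemma D_step (M n T : ℕ) (hM : 1 ≤ M) (hn : 2 * M ≤ n) (hT : 1 ≤ T) :
    ‖D T ((M : ℝ) / ((n + 1 : ℕ) : ℝ)) - D T ((M : ℝ) / n)‖ ≤ 7 / n := by
  have hM0 : (0 : ℝ) < M := by exact_mod_cast hM
  have hn2 : 2 * (M : ℝ) ≤ n := by exact_mod_cast hn
  have hn0 : (0 : ℝ) < n := by linarith
  have hT0 : (0 : ℝ) < T := by exact_mod_cast hT
  have h1 := norm_E_sub_one_ge ((M : ℝ) / n) 0 (by
    rw [Int.cast_zero, sub_zero, abs_of_pos (by positivity), div_le_iff₀ hn0]; linarith)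
  rw [Int.cast_zero, sub_zero, abs_of_pos (by positivity)] at h1
  have h2 := G_diff T hT ((M : ℝ) / n) ((M : ℝ) / ((n + 1 : ℕ) : ℝ))
  have h3 : |(M : ℝ) / n - (M : ℝ) / ((n + 1 : ℕ) : ℝ)| = (M : ℝ) / n * (1 / (n + 1)) := by
    rw [show (M : ℝ) / n - (M : ℝ) / ((n + 1 : ℕ) : ℝ) = (M : ℝ) / n * (1 / (n + 1)) by
      push_cast; field_simp; ring]
    exact abs_of_pos (by positivity)
  rw [h3] at h2
  set x := ‖G T ((M : ℝ) / n) - G T ((M : ℝ) / ((n + 1 : ℕ) : ℝ))‖ with hx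
  have hx0 : 0 ≤ x := norm_nonneg _
  have h4 : 4 * ((M : ℝ) / n) * x ≤ 8 * π * T * ((M : ℝ) / n * (1 / (n + 1))) :=
    le_trans (by gcongr) h2
  have hq : 0 < (M : ℝ) / n := by positivity
  have h5 : x ≤ 2 * π * T * (1 / (n + 1)) := by
    by_contra hc
    push Not at hc
    nlinarith [mul_lt_mul_of_pos_left hc hq]
  unfold D
  rw [← sub_div, norm_div, Complex.norm_natCast, norm_sub_rev, ← hx, div_le_iff₀ hT0]
  refine h5.trans ?_
  have h6 : 1 / ((n : ℝ) + 1) ≤ 1 / n := one_div_le_one_div_of_le hn0 (by linarith)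
  have h7 : π ≤ 3.5 := by linarith [Real.pi_lt_d2]
  calc 2 * π * T * (1 / ((n : ℝ) + 1)) ≤ 2 * 3.5 * T * (1 / n) := by gcongr
    _ = _ := by ring

lemma norm_div_sqrt_le (z : ℂ) (hz : ‖z‖ ≤ 1) (n : ℕ) (hn : 1 ≤ n) :
    ‖z / (Real.sqrt n : ℂ)‖ ≤ ‖z‖ := by
  rw [norm_div, Complex.norm_real, Real.norm_eq_abs, abs_of_nonneg (Real.sqrt_nonneg _)]
  have : (1 : ℝ) ≤ Real.sqrt n := by
    rw [Real.one_le_sqrt]; exact_mod_cast hn
  exact div_le_self (norm_nonneg _) this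

lemma main_est (M N : ℕ) (hM : 1 ≤ M) (hN : 2 * M ≤ N) :
    ‖∑ n ∈ Ico 1 (N + 1), w n * (D (M ^ 2) ((M : ℝ) / n) / (Real.sqrt n : ℂ))
      - ∑ n ∈ M.divisors, w n / (Real.sqrt n : ℂ)‖ ≤ 4 + 8 * Z := by
  have hT : 1 ≤ M ^ 2 := Nat.one_le_pow _ _ hM
  have hM0 : (0 : ℝ) < M := by exact_mod_cast hM
  set g : ℕ → ℂ := fun n => D (M ^ 2) ((M : ℝ) / n) / (Real.sqrt n : ℂ) with hg
  rw [← sum_Ico_consecutive _ (by omega : 1 ≤ 2 * M) (by omega : 2 * M ≤ N + 1)]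
  have hA : ‖∑ n ∈ Ico (2 * M) (N + 1), w n * g n‖ ≤ 2 + 8 * Z := by
    refine (abel_bound g _ _ (by omega)).trans ?_
    have h1 : ‖g (2 * M)‖ ≤ 1 :=
      (norm_div_sqrt_le _ (norm_D_le _ _) _ (by omega)).trans (norm_D_le _ _)
    have h2 : ‖g (N + 1)‖ ≤ 1 :=
      (norm_div_sqrt_le _ (norm_D_le _ _) _ (by omega)).trans (norm_D_le _ _)
    have h3 : ∑ n ∈ Ico (2 * M) (N + 1), ‖g (n + 1) - g n‖ ≤ 8 * Z := by
      calc _ ≤ ∑ n ∈ Ico (2 * M) (N + 1), (7 + 1) * (1 / (n : ℝ) ^ (3 / 2 : ℝ)) := by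
            refine sum_le_sum fun n hn => ?_
            rw [mem_Ico] at hn
            exact step_bound (fun n => D (M ^ 2) ((M : ℝ) / n)) 7 n (by omega) (norm_D_le _ _)
              (D_step M n _ hM hn.1 hT)
        _ ≤ 8 * Z := by
            rw [← mul_sum]
            have := sum_le_Z (Ico (2 * M) (N + 1))
            norm_num at this ⊢
            linarith
    linarith
  have hdiv : ∑ n ∈ M.divisors, w n / (Real.sqrt n : ℂ)
      = ∑ n ∈ (Ico 1 (2 * M)).filter (fun n => n ∣ M), w n * g n := by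
    refine sum_congr ?_ ?_
    · ext n
      simp only [Nat.mem_divisors, mem_filter, mem_Ico]
      constructor
      · rintro ⟨h, h0⟩
        have := Nat.le_of_dvd (by omega) h
        have := Nat.pos_of_dvd_of_pos h (by omega)
        exact ⟨⟨by omega, by omega⟩, h⟩
      · rintro ⟨_, h⟩
        exact ⟨h, by omega⟩
    · intro n hn
      rw [mem_filter, mem_Ico] at hn
      obtain ⟨k, hk⟩ := hn.2
      have hn0 : (n : ℝ) ≠ 0 := by exact_mod_cast (by omega)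
      have : (M : ℝ) / n = k := by rw [hk]; push_cast; field_simp
      simp only [hg, this, D_int _ hT k]
      ring
  have hB : ‖∑ n ∈ Ico 1 (2 * M), w n * g n - ∑ n ∈ M.divisors, w n / (Real.sqrt n : ℂ)‖ ≤ 2 := by
    rw [hdiv, ← sum_filter_add_sum_filter_not (Ico 1 (2 * M)) (fun n => n ∣ M), add_sub_cancel_left]
    refine (norm_sum_le _ _).trans ?_
    calc _ ≤ ∑ n ∈ (Ico 1 (2 * M)).filter (fun n => ¬ n ∣ M), (1 / M : ℝ) := by
          refine sum_le_sum fun n hn => ?_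
          rw [mem_filter, mem_Ico] at hn
          rw [norm_mul, norm_w, one_mul]
          refine (norm_div_sqrt_le _ (norm_D_le _ _) _ hn.1.1).trans ?_
          refine (D_nondvd M n _ hn.1.1 hT hn.2).trans ?_
          have : (n : ℝ) ≤ 2 * M := by exact_mod_cast hn.1.2.le
          push_cast
          rw [div_le_div_iff₀ (by positivity) hM0]
          nlinarith
      _ ≤ 2 := by
          rw [sum_const, nsmul_eq_mul]
          have h1 : ((Ico 1 (2 * M)).filter (fun n => ¬ n ∣ M)).card ≤ 2 * M := by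
            refine (card_filter_le _ _).trans ?_
            simp
          have h2 : (((Ico 1 (2 * M)).filter (fun n => ¬ n ∣ M)).card : ℝ) ≤ 2 * M := by
            exact_mod_cast h1
          rw [mul_one_div, div_le_iff₀ hM0]
          exact h2
  calc _ = ‖(∑ n ∈ Ico 1 (2 * M), w n * g n - ∑ n ∈ M.divisors, w n / (Real.sqrt n : ℂ))
        + ∑ n ∈ Ico (2 * M) (N + 1), w n * g n‖ := by congr 1; ring
    _ ≤ _ := by
      refine (norm_add_le _ _).trans ?_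
      linarith

/-- the real partial sums -/
def P (x : ℝ) (N : ℕ) : ℝ := ∑ n ∈ Finset.Icc 1 N,
  2 / Real.sqrt (n : ℝ) * Real.cos (Real.pi * ((3 * (n : ℝ) - 1) / 4 - x / (n : ℝ)))

lemma P_eq (y : ℝ) (N : ℕ) : P (-2 * y) N =
    2 * (∑ n ∈ Ico 1 (N + 1), w n * (E (y / n) / (Real.sqrt n : ℂ))).re := by
  unfold P
  rw [Complex.re_sum, mul_sum]
  refine sum_congr (by ext n; simp [Nat.lt_succ_iff]) fun n _ => ?_
  rw [← mul_div_assoc, w, ← E_add, Complex.div_ofReal_re, re_E]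
  rw [show 2 * π * ((3 * (n : ℝ) - 1) / 8 + y / n) = π * ((3 * (n : ℝ) - 1) / 4 - -2 * y / n) by ring]
  ring

/-- If the limit is bounded by B at the points -2 M t, then the divisor sum is bounded. -/
lemma divisor_bound (M : ℕ) (hM : 1 ≤ M) (B : ℝ)
    (h : ∀ t : ℕ, t < M ^ 2 → ∀ S : ℝ,
      Tendsto (P (-2 * (((t + 1 : ℕ) : ℝ) * M))) atTop (𝓝 S) → |S| ≤ B) :
    2 * (∑ n ∈ M.divisors, w n / (Real.sqrt n : ℂ)).re ≤ B + 2 * (4 + 8 * Z) := by
  have hT : 1 ≤ M ^ 2 := Nat.one_le_pow _ _ hM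
  have hT0 : (0 : ℝ) < ((M ^ 2 : ℕ) : ℝ) := by exact_mod_cast hT
  choose S hS using converges
  have h1 : ∀ t : ℕ, t < M ^ 2 → 2 * (S (((t + 1 : ℕ) : ℝ) * M)).re ≤ B := by
    intro t ht
    refine le_trans (le_abs_self _) (h t ht _ ?_)
    have := ((Complex.continuous_re.tendsto _).comp (hS (((t + 1 : ℕ) : ℝ) * M))).const_mul 2
    refine this.congr fun N => ?_
    rw [P_eq]; rfl
  set A : ℂ := (∑ t ∈ range (M ^ 2), S (((t + 1 : ℕ) : ℝ) * M)) / ((M ^ 2 : ℕ) : ℂ) with hA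
  have h2 : Tendsto (fun N : ℕ => ∑ n ∈ Ico 1 (N + 1),
      w n * (D (M ^ 2) ((M : ℝ) / n) / (Real.sqrt n : ℂ))) atTop (𝓝 A) := by
    have := (tendsto_finsetSum (range (M ^ 2))
      (fun t _ => hS (((t + 1 : ℕ) : ℝ) * M))).div_const ((M ^ 2 : ℕ) : ℂ)
    refine this.congr fun N => ?_
    rw [sum_comm, sum_div]
    refine sum_congr rfl fun n _ => ?_
    rw [← mul_sum, ← sum_div, D, G]
    simp only [mul_div_assoc]
    ring
  have h3 : ‖A - ∑ n ∈ M.divisors, w n / (Real.sqrt n : ℂ)‖ ≤ 4 + 8 * Z := by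
    refine le_of_tendsto ((h2.sub_const _).norm) ?_
    filter_upwards [eventually_ge_atTop (2 * M)] with N hN
    exact main_est M N hM hN
  have h4 : 2 * A.re ≤ B := by
    rw [hA, Complex.div_natCast_re, Complex.re_sum, ← mul_div_assoc, div_le_iff₀ hT0, mul_sum]
    calc _ ≤ ∑ t ∈ range (M ^ 2), B := sum_le_sum fun t ht => h1 t (mem_range.1 ht)
      _ = _ := by simp [mul_comm]
  have h5 := (Complex.abs_re_le_norm _).trans h3
  rw [Complex.sub_re, abs_le] at h5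
  linarith [h5.1]

end Pool.Agent.H497Z.Cos
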