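import Pool.Agent.H497Z.CosB

set_option autoImplicit false

open Complex Finset Filter Topology
open scoped Real

noncomputable section

namespace Pool.Agent.H497Z.Cos

lemma mod_eight (n : ℕ) (hn : n ≠ 0) (h : ∀ p : ℕ, p.Prime → p ∣ n → p % 8 = 3) :
    n % 8 = 1 ∨ n % 8 = 3 := by
  induction n using induction_on_primes with
  | zero => exact absurd rfl hn
  | one => left; rfl
  | prime_mul p a hp ih =>
    have h1 := h p hp (dvd_mul_right _ _)
    have h2 := ih (by rintro rfl; simp at hn) (fun q hq hqa => h q hq (hqa.mul_left _))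
    rw [Nat.mul_mod, h1]
    rcases h2 with h2 | h2 <;> rw [h2] <;> simp

lemma re_w_one (n : ℕ) (h : n % 8 = 1) : (w n).re = 0 := by
  obtain ⟨k, rfl⟩ : ∃ k, n = 8 * k + 1 := ⟨n / 8, by omega⟩
  have : w (8 * k + 1) = E (1 / 4) := by
    unfold w
    have h1 := E_int (3 * k : ℕ)
    rw [show ((3 * ((8 * k + 1 : ℕ) : ℝ) - 1) / 8) = (((3 * k : ℕ) : ℤ) : ℝ) + 1 / 4 by
      push_cast; ring, E_add, h1, one_mul]
  rw [this, re_E, show 2 * π * (1 / 4) = π / 2 by ring, Real.cos_pi_div_two]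

lemma re_w_three (n : ℕ) (h : n % 8 = 3) : (w n).re = 1 := by
  obtain ⟨k, rfl⟩ : ∃ k, n = 8 * k + 3 := ⟨n / 8, by omega⟩
  have : w (8 * k + 3) = 1 := by
    unfold w
    have h1 := E_int (3 * k + 1 : ℕ)
    rw [show ((3 * ((8 * k + 3 : ℕ) : ℝ) - 1) / 8) = (((3 * k + 1 : ℕ) : ℤ) : ℝ) by
      push_cast; ring, h1]
  rw [this, Complex.one_re]

def f1 : ArithmeticFunction ℝ := ⟨fun n => 1 / Real.sqrt n, by simp⟩

def f2 : ArithmeticFunction ℝ := ⟨fun n => ((ZMod.χ₈ n : ℤ) : ℝ) / Real.sqrt n, by simp⟩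

lemma f1_mult : f1.IsMultiplicative := by
  refine ⟨by simp [f1], fun {m n} _ => ?_⟩
  simp only [f1, ArithmeticFunction.coe_mk, Nat.cast_mul]
  rw [Real.sqrt_mul (by positivity)]
  ring

lemma f2_mult : f2.IsMultiplicative := by
  refine ⟨by simp [f2], fun {m n} _ => ?_⟩
  simp only [f2, ArithmeticFunction.coe_mk, Nat.cast_mul, map_mul, Int.cast_mul]
  rw [Real.sqrt_mul (by positivity)]
  ring

def SS (y : ℕ) : Finset ℕ := (range y).filter (fun p => p.Prime ∧ p % 8 = 3)

def MM (y : ℕ) : ℕ := ∏ p ∈ SS y, p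

lemma SS_prime (y : ℕ) : ∀ p ∈ SS y, p.Prime := fun p hp => (mem_filter.1 hp).2.1

lemma MM_pos (y : ℕ) : 1 ≤ MM y := prod_pos fun p hp => (SS_prime y p hp).pos

lemma MM_dvd (y : ℕ) : MM y ∣ primorial y := by
  unfold MM primorial
  refine prod_dvd_prod_of_subset _ _ _ fun p hp => ?_
  simp only [SS, mem_filter, mem_range] at hp ⊢
  exact ⟨by omega, hp.2.1⟩

lemma MM_le (y : ℕ) : MM y ≤ 4 ^ y :=
  (Nat.le_of_dvd (primorial_pos y) (MM_dvd y)).trans (primorial_le_four_pow y)

lemma MM_sqfree (y : ℕ) : Squarefree (MM y) :=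
  (squarefree_primorial y).squarefree_of_dvd (MM_dvd y)

lemma divisor_sum_ge (y : ℕ) :
    ∏ p ∈ SS y, (1 + 1 / Real.sqrt p) - 1
      ≤ 2 * (∑ n ∈ (MM y).divisors, w n / (Real.sqrt n : ℂ)).re := by
  have hpf : (MM y).primeFactors = SS y := Nat.primeFactors_prod (SS_prime y)
  have h1 := f1_mult.prodPrimeFactors_one_add_of_squarefree (MM_sqfree y)
  have h2 := f2_mult.prodPrimeFactors_one_add_of_squarefree (MM_sqfree y)
  rw [hpf] at h1 h2
  have h3 : ∏ p ∈ SS y, (1 + f2 p) ≤ 1 := by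
    refine prod_le_one (fun p hp => ?_) (fun p hp => ?_)
    all_goals
      have hp8 : p % 8 = 3 := (mem_filter.1 hp).2.2
      have hχ : ZMod.χ₈ p = -1 := by
        rw [ZMod.χ₈_nat_eq_if_mod_eight, if_neg (by omega), if_neg (by omega)]
      have hs : (1 : ℝ) ≤ Real.sqrt p := by
        rw [Real.one_le_sqrt]; exact_mod_cast (by omega)
      simp only [f2, ArithmeticFunction.coe_mk, hχ]
      push_cast
    · have : (1 : ℝ) / Real.sqrt p ≤ 1 := by
        rw [div_le_one (by linarith)]; exact hs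
      rw [neg_div]; linarith
    · have : 0 ≤ (1 : ℝ) / Real.sqrt p := by positivity
      rw [neg_div]; linarith
  have h4 : 2 * (∑ n ∈ (MM y).divisors, w n / (Real.sqrt n : ℂ)).re
      = ∑ n ∈ (MM y).divisors, f1 n - ∑ n ∈ (MM y).divisors, f2 n := by
    rw [Complex.re_sum, mul_sum, ← sum_sub_distrib]
    refine sum_congr rfl fun n hn => ?_
    have hn' := Nat.dvd_of_mem_divisors hn
    have hn0 : n ≠ 0 := (Nat.pos_of_mem_divisors hn).ne'
    have h8 := mod_eight n hn0 (fun p hp hpn => by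
      have : p ∈ (MM y).primeFactors :=
        Nat.mem_primeFactors.2 ⟨hp, hpn.trans hn', by have := MM_pos y; omega⟩
      rw [hpf] at this
      exact (mem_filter.1 this).2.2)
    rw [Complex.div_ofReal_re]
    simp only [f1, f2, ArithmeticFunction.coe_mk]
    rcases h8 with h8 | h8
    · rw [re_w_one n h8, ZMod.χ₈_nat_eq_if_mod_eight, if_neg (by omega), if_pos (by omega)]
      push_cast; ring
    · rw [re_w_three n h8, ZMod.χ₈_nat_eq_if_mod_eight, if_neg (by omega), if_neg (by omega)]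
      push_cast; ring
  rw [h4, ← h1, ← h2]
  have : ∏ p ∈ SS y, (1 + f1 p) = ∏ p ∈ SS y, (1 + 1 / Real.sqrt p) := rfl
  linarith

lemma exp_le_prod (y : ℕ) :
    Real.exp ((∑ p ∈ SS y, 1 / Real.sqrt p) / 2) ≤ ∏ p ∈ SS y, (1 + 1 / Real.sqrt p) := by
  rw [sum_div, Real.exp_sum]
  refine prod_le_prod (fun p _ => (Real.exp_pos _).le) fun p hp => ?_
  have hs : (1 : ℝ) ≤ Real.sqrt p := by
    rw [Real.one_le_sqrt]; exact_mod_cast (SS_prime y p hp).pos
  set a := 1 / Real.sqrt p with ha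
  have ha0 : 0 ≤ a := by positivity
  have ha1 : a ≤ 1 := by rw [ha, div_le_one (by linarith)]; exact hs
  have h1 := Real.le_log_one_add_of_nonneg ha0
  rw [← Real.le_log_iff_exp_le (by linarith)]
  refine le_trans ?_ h1
  rw [div_le_div_iff₀ (by norm_num) (by linarith)]
  nlinarith

/-- The sum of `p^(-1/2)` over primes `3 mod 8` below `4^j` is not `O(j)`. -/
lemma not_linear (K : ℝ) (j0 : ℕ) :
    ¬ ∀ j : ℕ, j0 ≤ j → ∑ p ∈ SS (4 ^ (j + 1)), 1 / Real.sqrt p ≤ K * (j + 1) := by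
  intro h
  have hu : IsUnit (3 : ZMod 8) := by decide
  refine ArithmeticFunction.vonMangoldt.not_summable_residueClass_prime_div hu ?_
  set f : ℕ → ℝ := fun n =>
    (if n.Prime then ArithmeticFunction.vonMangoldt.residueClass (3 : ZMod 8) n else 0) / n with hf
  have hf0 : ∀ n, 0 ≤ f n := by
    intro n
    simp only [hf]
    split_ifs
    · exact div_nonneg (ArithmeticFunction.vonMangoldt.residueClass_nonneg _ _) (by positivity)
    · simp
  let b : ℕ → ℝ := fun j => 2 * K * (((j : ℝ) + 1) ^ 2 * (1 / 2) ^ j)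
  have hK : 0 ≤ K := by
    have h1 := h j0 le_rfl
    have h2 : 0 ≤ ∑ p ∈ SS (4 ^ (j0 + 1)), 1 / Real.sqrt p := sum_nonneg fun p _ => by positivity
    by_contra hK
    push Not at hK
    nlinarith [(by positivity : (0 : ℝ) ≤ (j0 : ℝ))]
  have hb0 : ∀ j, 0 ≤ b j := fun j => by positivity
  have hb : Summable b := by
    refine Summable.mul_left _ ?_
    have h1 := summable_pow_mul_geometric_of_norm_lt_one (R := ℝ) 2 (r := 1 / 2) (by norm_num)
    have h2 := ((summable_nat_add_iff 1).2 h1).mul_left 2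
    refine h2.congr fun j => ?_
    push_cast; ring
  have hblock : ∀ j, j0 ≤ j → ∑ n ∈ Ico (4 ^ j) (4 ^ (j + 1)), f n ≤ b j := by
    intro j hj
    have h1 : ∀ n ∈ Ico (4 ^ j) (4 ^ (j + 1)), f n ≤
        (2 * ((j : ℝ) + 1) * (1 / 2) ^ j) *
          (if n.Prime ∧ n % 8 = 3 then 1 / Real.sqrt n else 0) := by
      intro n hn
      rw [mem_Ico] at hn
      by_cases hp : n.Prime ∧ n % 8 = 3
      · rw [if_pos hp]
        have hn0 : (0 : ℝ) < n := by exact_mod_cast hp.1.pos
        have h2 : f n ≤ Real.log n / n := by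
          simp only [hf, if_pos hp.1]
          gcongr
          refine (ArithmeticFunction.vonMangoldt.residueClass_le _ _).trans ?_
          exact ArithmeticFunction.vonMangoldt_le_log
        have h3 : Real.log n ≤ 2 * ((j : ℝ) + 1) := by
          have h4 : (n : ℝ) ≤ 4 ^ (j + 1) := by exact_mod_cast hn.2.le
          refine (Real.log_le_log hn0 h4).trans ?_
          rw [Real.log_pow]
          have : Real.log 4 ≤ 2 := by
            rw [show (4 : ℝ) = 2 ^ 2 by norm_num, Real.log_pow]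
            have := Real.log_two_lt_d9
            push_cast; linarith
          push_cast
          nlinarith [(by positivity : (0 : ℝ) ≤ (j : ℝ) + 1)]
        have h5 : (2 : ℝ) ^ j ≤ Real.sqrt n := by
          rw [Real.le_sqrt (by positivity) hn0.le, ← pow_mul, mul_comm, pow_mul]
          norm_num
          exact_mod_cast hn.1
        have hs : 0 < Real.sqrt n := Real.sqrt_pos.2 hn0
        have h6 : 1 / Real.sqrt n ≤ (1 / 2) ^ j := by
          rw [one_div_pow]; exact one_div_le_one_div_of_le (by positivity) h5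
        refine h2.trans ?_
        calc Real.log n / n = Real.log n * (1 / Real.sqrt n) * (1 / Real.sqrt n) := by
              conv_lhs => rw [← Real.mul_self_sqrt hn0.le]
              rw [Real.mul_self_sqrt hn0.le]
              field_simp
              rw [Real.sq_sqrt hn0.le]
          _ ≤ _ := by gcongr
      · rw [if_neg hp, mul_zero]
        simp only [hf]
        split_ifs with h1
        · have : ¬ ((n : ZMod 8) = 3) := by
            intro h3
            apply hp
            refine ⟨h1, ?_⟩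
            have := (ZMod.natCast_eq_natCast_iff' n 3 8).1 (by simpa using h3)
            simpa using this
          simp [ArithmeticFunction.vonMangoldt.residueClass, this]
        · simp
    refine (sum_le_sum h1).trans ?_
    rw [← mul_sum, ← sum_filter]
    have h2 : ∑ n ∈ (Ico (4 ^ j) (4 ^ (j + 1))).filter (fun n : ℕ => n.Prime ∧ n % 8 = 3),
        1 / Real.sqrt (n : ℕ) ≤ ∑ p ∈ SS (4 ^ (j + 1)), 1 / Real.sqrt p := by
      refine sum_le_sum_of_subset_of_nonneg (fun n hn => ?_) (fun _ _ _ => by positivity)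
      simp only [SS, mem_filter, mem_Ico, mem_range] at hn ⊢
      exact ⟨hn.1.2, hn.2⟩
    have h3 := h2.trans (h j hj)
    calc _ ≤ 2 * ((j : ℝ) + 1) * (1 / 2) ^ j * (K * (j + 1)) := by gcongr
      _ = b j := by simp only [b]; ring
  have hpart : ∀ J, j0 ≤ J → ∑ n ∈ range (4 ^ J), f n ≤
      ∑ n ∈ range (4 ^ j0), f n + ∑ j ∈ range J, b j := by
    intro J hJ
    induction J, hJ using Nat.le_induction with
    | base => linarith [sum_nonneg (fun j (_ : j ∈ range j0) => hb0 j)]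
    | succ J hJ ih =>
      rw [← sum_range_add_sum_Ico f (Nat.pow_le_pow_right (by norm_num) (Nat.le_succ J)),
        sum_range_succ]
      linarith [hblock J hJ]
  refine summable_of_sum_range_le (c := ∑ n ∈ range (4 ^ j0), f n + ∑' j, b j) hf0 fun N => ?_
  have h1 : N ≤ 4 ^ (N + j0) :=
    (Nat.lt_pow_self (by norm_num : 1 < 4)).le.trans
      (Nat.pow_le_pow_right (by norm_num) (Nat.le_add_right _ _))
  have h2 : ∑ n ∈ range N, f n ≤ ∑ n ∈ range (4 ^ (N + j0)), f n :=
    sum_le_sum_of_subset_of_nonneg (range_subset_range.2 h1) (fun n _ _ => hf0 n)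
  have h3 := hpart (N + j0) (by omega)
  have h4 := hb.sum_le_tsum (range (N + j0)) (fun j _ => hb0 j)
  linarith

theorem not_polylog :
    ¬ (∃ k : ℝ, 0 < k ∧ ∃ C M : ℝ, ∀ x : ℝ, M ≤ |x| → ∀ S : ℝ,
      Tendsto (P x) atTop (𝓝 S) → |S| ≤ C * (Real.log |x|) ^ k) := by
  rintro ⟨k, hk, C, M0, h⟩
  obtain ⟨p0, hp0, hp1, hp2⟩ :=
    Nat.forall_exists_prime_gt_and_modEq (⌈M0⌉₊) (q := 8) (a := 3) (by norm_num) (by norm_num)
  have hp3 : p0 % 8 = 3 := hp2
  set C1 : ℝ := 1 + 2 * (4 + 8 * Z) + |C| * 5 ^ k with hC1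
  have hZ : 0 ≤ Z := tsum_nonneg fun n => by positivity
  have hC1pos : 1 ≤ C1 := by
    have : 0 ≤ |C| * 5 ^ k := by positivity
    linarith
  refine not_linear (2 * Real.log C1 + 4 * k) p0 fun j hj => ?_
  set y : ℕ := 4 ^ (j + 1) with hy
  have hy1 : p0 < y := by
    have : j + 1 < 4 ^ (j + 1) := Nat.lt_pow_self (by norm_num)
    omega
  have hyR : (1 : ℝ) ≤ y := by exact_mod_cast (by omega)
  have hM1 := MM_pos y
  have hMp : p0 ≤ MM y := by
    refine Nat.le_of_dvd hM1 (dvd_prod_of_mem _ ?_)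
    simp only [SS, mem_filter, mem_range]
    exact ⟨hy1, hp1, hp3⟩
  have hMR : (1 : ℝ) ≤ MM y := by exact_mod_cast hM1
  have hM0 : M0 ≤ MM y := by
    have h1 : M0 ≤ (⌈M0⌉₊ : ℝ) := Nat.le_ceil _
    have h2 : (⌈M0⌉₊ : ℝ) ≤ MM y := by exact_mod_cast (by omega)
    linarith
  have hB := divisor_bound (MM y) hM1 (|C| * (5 * y) ^ k) (by
    intro t ht S hS
    have ht1 : (1 : ℝ) ≤ ((t + 1 : ℕ) : ℝ) := by exact_mod_cast (by omega)
    have ht2 : ((t + 1 : ℕ) : ℝ) ≤ (MM y : ℝ) ^ 2 := by exact_mod_cast ht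
    have habs : |-2 * (((t + 1 : ℕ) : ℝ) * (MM y : ℝ))| = 2 * (((t + 1 : ℕ) : ℝ) * (MM y : ℝ)) := by
      rw [abs_of_neg (by nlinarith)]; ring
    have h1 := h _ (by rw [habs]; nlinarith) S hS
    rw [habs] at h1
    have hx1 : 1 ≤ 2 * (((t + 1 : ℕ) : ℝ) * (MM y : ℝ)) := by nlinarith
    have hlog0 : 0 ≤ Real.log (2 * (((t + 1 : ℕ) : ℝ) * (MM y : ℝ))) := Real.log_nonneg hx1
    have hlog : Real.log (2 * (((t + 1 : ℕ) : ℝ) * (MM y : ℝ))) ≤ 5 * y := by
      have h2 : (MM y : ℝ) ≤ 4 ^ y := by exact_mod_cast MM_le y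
      have h3 : 2 * (((t + 1 : ℕ) : ℝ) * (MM y : ℝ)) ≤ 2 ^ (6 * y + 1) := by
        calc _ ≤ 2 * (((4 : ℝ) ^ y) ^ 2 * 4 ^ y) := by
              gcongr
              exact ht2.trans (by gcongr)
          _ = _ := by
              have : (4 : ℝ) ^ y = (2 ^ y) ^ 2 := by
                rw [← pow_mul, mul_comm, pow_mul]; norm_num
              rw [this]; ring
      refine (Real.log_le_log (by linarith) h3).trans ?_
      rw [Real.log_pow]
      have := Real.log_two_lt_d9
      push_cast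
      nlinarith
    refine h1.trans ?_
    calc _ ≤ |C| * Real.log (2 * (((t + 1 : ℕ) : ℝ) * (MM y : ℝ))) ^ k := by
          gcongr; exact le_abs_self C
      _ ≤ _ := by gcongr)
  have h1 := divisor_sum_ge y
  have h2 := exp_le_prod y
  have hyk : (1 : ℝ) ≤ (y : ℝ) ^ k := Real.one_le_rpow hyR hk.le
  have h3 : Real.exp ((∑ p ∈ SS y, 1 / Real.sqrt p) / 2) ≤ C1 * (y : ℝ) ^ k := by
    rw [Real.mul_rpow (by norm_num) (by linarith)] at hB
    have : (1 + 2 * (4 + 8 * Z)) * 1 ≤ (1 + 2 * (4 + 8 * Z)) * (y : ℝ) ^ k := by gcongr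
    rw [hC1]
    nlinarith
  rw [← Real.le_log_iff_exp_le (by positivity), Real.log_mul (by linarith) (by linarith),
    Real.log_rpow (by linarith)] at h3
  have h4 : Real.log y ≤ 2 * ((j : ℝ) + 1) := by
    rw [hy]; push_cast
    rw [Real.log_pow]
    have : Real.log 4 ≤ 2 := by
      rw [show (4 : ℝ) = 2 ^ 2 by norm_num, Real.log_pow]
      have := Real.log_two_lt_d9
      push_cast; linarith
    push_cast
    nlinarith [(by positivity : (0 : ℝ) ≤ (j : ℝ) + 1)]
  have h5 : 0 ≤ Real.log C1 := Real.log_nonneg hC1pos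
  have h6 : k * Real.log y ≤ k * (2 * ((j : ℝ) + 1)) := by gcongr
  nlinarith [(by positivity : (0 : ℝ) ≤ (j : ℝ))]

end Pool.Agent.H497Z.Cos
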