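import Mathlib

set_option autoImplicit false

namespace Pool.Agent.H497Z.Domatic

/-- Points of the 8 by 8 grid, and transversals of its rows (false) or columns (true). -/
abbrev V : Type := (ZMod 8 × ZMod 8) ⊕ (Bool × (ZMod 8 → ZMod 8))

def inc (a : ZMod 8 × ZMod 8) (b : Bool × (ZMod 8 → ZMod 8)) : Prop :=
  (b.1 = false ∧ b.2 a.1 = a.2) ∨ (b.1 = true ∧ b.2 a.2 = a.1)

def adj : V → V → Prop
  | Sum.inl a, Sum.inr b => inc a b
  | Sum.inr b, Sum.inl a => inc a b
  | _, _ => False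

def G : SimpleGraph V where
  Adj := adj
  symm := ⟨by
    intro x y h
    rcases x with x | x <;> rcases y with y | y <;> simp_all [adj]⟩
  loopless := ⟨by
    intro x h
    rcases x with x | x <;> simp_all [adj]⟩

def s (b : Bool × (ZMod 8 → ZMod 8)) : ZMod 8 := b.2 0 + b.2 1

def chi (t : Bool) (a : ZMod 8 × ZMod 8) : ZMod 8 := if t then a.2 else a.1

def col : V × V → ZMod 8
  | (Sum.inl _, Sum.inl _) => 0
  | (Sum.inl a, Sum.inr b') => chi b'.1 a + s b'
  | (Sum.inr b, Sum.inl a') => chi (!b.1) a' + s b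
  | (Sum.inr b, Sum.inr b') => s b + s b'

lemma exists_s (a : ZMod 8 × ZMod 8) (z : ZMod 8) :
    ∃ f : ZMod 8 → ZMod 8, inc a (false, f) ∧ s (false, f) = z := by
  have h10 : (1 : ZMod 8) ≠ 0 := by decide
  by_cases h : a.1 = 0
  · refine ⟨fun x => if x = 0 then a.2 else z - a.2, ?_, ?_⟩
    · left; simp [h]
    · simp [s, h10]
  · refine ⟨fun x => if x = 0 then z - a.2 else a.2, ?_, ?_⟩
    · left; simp [h]
    · simp [s, h10]

lemma exists_chi (b : Bool × (ZMod 8 → ZMod 8)) (z : ZMod 8) :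
    ∃ a, inc a b ∧ chi b.1 a = z := by
  rcases b with ⟨t, f⟩
  cases t
  · exact ⟨(z, f z), Or.inl ⟨rfl, rfl⟩, by simp [chi]⟩
  · exact ⟨(f z, z), Or.inr ⟨rfl, rfl⟩, by simp [chi]⟩

lemma no_isolated (v : V) : ∃ u, G.Adj v u := by
  rcases v with a | b
  · obtain ⟨f, hf, -⟩ := exists_s a 0
    exact ⟨Sum.inr (false, f), hf⟩
  · obtain ⟨a, ha, -⟩ := exists_chi b 0
    exact ⟨Sum.inl a, ha⟩

lemma total (x : V × V) (i : ZMod 8) :
    ∃ y : V × V, (SimpleGraph.boxProd G G).Adj x y ∧ col y = i := by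
  rcases x with ⟨a | b, a' | b'⟩
  · obtain ⟨f, hf, hs⟩ := exists_s a' (i - a.1)
    refine ⟨(Sum.inl a, Sum.inr (false, f)), ?_, ?_⟩
    · rw [SimpleGraph.boxProd_adj]; right; exact ⟨hf, rfl⟩
    · simp [col, hs, chi]
  · obtain ⟨f, hf, hs⟩ := exists_s a (i - s b')
    refine ⟨(Sum.inr (false, f), Sum.inr b'), ?_, ?_⟩
    · rw [SimpleGraph.boxProd_adj]; left; exact ⟨hf, rfl⟩
    · simp [col, hs]
  · obtain ⟨f, hf, hs⟩ := exists_s a' (i - s b)
    refine ⟨(Sum.inr b, Sum.inr (false, f)), ?_, ?_⟩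
    · rw [SimpleGraph.boxProd_adj]; right; exact ⟨hf, rfl⟩
    · simp [col, hs]
  · by_cases h : b.1 = b'.1
    · obtain ⟨a, ha, hc⟩ := exists_chi b (i - s b')
      refine ⟨(Sum.inl a, Sum.inr b'), ?_, ?_⟩
      · rw [SimpleGraph.boxProd_adj]; left; exact ⟨ha, rfl⟩
      · simp [col, ← h, hc]
    · obtain ⟨a, ha, hc⟩ := exists_chi b' (i - s b)
      refine ⟨(Sum.inr b, Sum.inl a), ?_, ?_⟩
      · rw [SimpleGraph.boxProd_adj]; right; exact ⟨ha, rfl⟩
      · have h' : (!b.1) = b'.1 := by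
          revert h; cases b.1 <;> cases b'.1 <;> simp
        simp [col, h', hc]

lemma dom_le (m : ℕ) (c : V → Fin m)
    (hc : ∀ v : V, ∀ i : Fin m, ∃ u : V, (u = v ∨ G.Adj v u) ∧ c u = i) : m ≤ 3 := by
  by_contra hm
  push Not at hm
  have key : ∀ (t : Bool) (p q : Fin m), p ≠ q →
      ∃ z : ZMod 8, ∀ a, chi t a = z → (c (Sum.inl a) = p ∨ c (Sum.inl a) = q) := by
    intro t p q hpq
    by_contra hne
    push Not at hne
    choose g hg using hne
    let f : ZMod 8 → ZMod 8 := fun z => chi (!t) (g z)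
    have hb : ∀ a, inc a (t, f) → c (Sum.inl a) ≠ p ∧ c (Sum.inl a) ≠ q := by
      intro a ha
      have : a = g (chi t a) := by
        have h1 := (hg (chi t a)).1
        cases t
        · rcases ha with ⟨-, ha⟩ | ⟨ha, -⟩
          · simp only [chi, f] at ha h1 ⊢
            simp at ha h1 ⊢
            exact Prod.ext h1.symm ha.symm
          · simp at ha
        · rcases ha with ⟨ha, -⟩ | ⟨-, ha⟩
          · simp at ha
          · simp only [chi, f] at ha h1 ⊢
            simp at ha h1 ⊢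
            exact Prod.ext ha.symm h1.symm
      rw [this]
      exact (hg _).2
    have h1 : ∀ r : Fin m, (r = p ∨ r = q) → c (Sum.inr (t, f)) = r := by
      intro r hr
      obtain ⟨u, hu, hcu⟩ := hc (Sum.inr (t, f)) r
      rcases hu with rfl | hu
      · exact hcu
      · rcases u with a | b
        · have := hb a hu
          rcases hr with rfl | rfl
          · exact absurd hcu this.1
          · exact absurd hcu this.2
        · exact absurd hu (by simp [G, adj])
    exact hpq ((h1 p (Or.inl rfl)).symm.trans (h1 q (Or.inr rfl)))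
  obtain ⟨z, hz⟩ := key false ⟨0, by omega⟩ ⟨1, by omega⟩ (by simp)
  obtain ⟨w, hw⟩ := key true ⟨2, by omega⟩ ⟨3, by omega⟩ (by simp)
  have h1 := hz (z, w) (by simp [chi])
  have h2 := hw (z, w) (by simp [chi])
  rcases h1 with h1 | h1 <;> rcases h2 with h2 | h2 <;>
    · rw [h1] at h2; simp at h2

end Pool.Agent.H497Z.Domatic
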