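import Mathlib

set_option autoImplicit false

open Finset Filter Topology

namespace Pool.Agent.H497Z.Rainbow

def F (m : ℕ) (c : Fin m × Fin m → Fin 25) (u v : Fin (m + m)) : Fin 25 :=
  if h : u.val < m ∧ m ≤ v.val then c (⟨u.val, h.1⟩, ⟨v.val - m, by have := v.2; omega⟩)
  else if h : v.val < m ∧ m ≤ u.val then c (⟨v.val, h.1⟩, ⟨u.val - m, by have := u.2; omega⟩)
  else 0

lemma F_symm (m : ℕ) (c : Fin m × Fin m → Fin 25) (u v : Fin (m + m)) : F m c u v = F m c v u := by
  unfold F
  by_cases h1 : u.val < m ∧ m ≤ v.val <;> by_cases h2 : v.val < m ∧ m ≤ u.val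
  · omega
  · simp [h1, h2]
  · simp [h1, h2]
  · simp [h1, h2]

def col (m : ℕ) (c : Fin m × Fin m → Fin 25) (e : {e : Sym2 (Fin (m + m)) // ¬ e.IsDiag}) :
    Fin 25 := Sym2.lift ⟨F m c, F_symm m c⟩ e.1

lemma col_good (m : ℕ) (c : Fin m × Fin m → Fin 25) (S : Finset (Fin (m + m))) (hS : S.card = 4) :
    ((Finset.univ.filter
      (fun e : {e : Sym2 (Fin (m + m)) // ¬ e.IsDiag} => e.1 ∈ S.sym2)).image (col m c)).card < 6 := by
  have hsub : (Finset.univ.filter
      (fun e : {e : Sym2 (Fin (m + m)) // ¬ e.IsDiag} => e.1 ∈ S.sym2)).image (col m c) ⊆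
      insert 0 (((S.filter (fun u => u.val < m)) ×ˢ (S.filter (fun u => ¬ u.val < m))).image
        (fun p => F m c p.1 p.2)) := by
    intro x hx
    simp only [mem_image, mem_filter, mem_univ, true_and] at hx
    obtain ⟨⟨e, he⟩, h1, rfl⟩ := hx
    induction e using Sym2.ind with
    | h u v =>
      rw [Finset.mk_mem_sym2_iff] at h1
      have : col m c ⟨s(u, v), he⟩ = F m c u v := rfl
      rw [this, mem_insert, mem_image]
      by_cases h2 : u.val < m ∧ m ≤ v.val
      · right
        exact ⟨(u, v), by simp [h1.1, h1.2, h2.1, h2.2], rfl⟩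
      · by_cases h3 : v.val < m ∧ m ≤ u.val
        · right
          exact ⟨(v, u), by simp [h1.1, h1.2, h3.1, h3.2], F_symm m c v u⟩
        · left
          unfold F
          rw [dif_neg h2, dif_neg h3]
  have h1 := card_le_card hsub
  have h2 := card_insert_le (0 : Fin 25) (((S.filter (fun u => u.val < m)) ×ˢ
    (S.filter (fun u => ¬ u.val < m))).image (fun p => F m c p.1 p.2))
  have h3 := card_image_le (s := (S.filter (fun u => u.val < m)) ×ˢ
    (S.filter (fun u => ¬ u.val < m))) (f := fun p => F m c p.1 p.2)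
  rw [card_product] at h3
  have h4 := card_filter_add_card_filter_not (s := S) (fun u => u.val < m)
  rw [hS] at h4
  set a := (S.filter (fun u => u.val < m)).card
  set b := (S.filter (fun u => ¬ u.val < m)).card
  have h5 : a * b ≤ 4 := by
    have : a ≤ 4 := by omega
    have hb : b = 4 - a := by omega
    rw [hb]
    interval_cases a <;> simp
  omega

lemma col_inj (m : ℕ) : Function.Injective (col m) := by
  intro c c' h
  funext ⟨i, j⟩
  have hi := i.2
  have hj := j.2
  have := congrFun h ⟨s((⟨i.val, by omega⟩ : Fin (m + m)), ⟨m + j.val, by omega⟩), by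
    simp only [Sym2.mk_isDiag_iff, Fin.mk.injEq]; omega⟩
  simpa [col, F] using this

lemma card_ge (m : ℕ) : 25 ^ (m * m) ≤
    Nat.card {c : {e : Sym2 (Fin (m + m)) // ¬ e.IsDiag} → Fin 25 //
      ∀ S : Finset (Fin (m + m)), S.card = 4 →
        ((Finset.univ.filter
          (fun e : {e : Sym2 (Fin (m + m)) // ¬ e.IsDiag} => e.1 ∈ S.sym2)).image c).card < 6} := by
  have := Nat.card_le_card_of_injective
    (β := {c : {e : Sym2 (Fin (m + m)) // ¬ e.IsDiag} → Fin 25 //
      ∀ S : Finset (Fin (m + m)), S.card = 4 →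
        ((Finset.univ.filter
          (fun e : {e : Sym2 (Fin (m + m)) // ¬ e.IsDiag} => e.1 ∈ S.sym2)).image c).card < 6})
    (fun c : Fin m × Fin m → Fin 25 => ⟨col m c, col_good m c⟩)
    (fun c c' h => col_inj m (congrArg Subtype.val h))
  simpa using this

lemma choose_add (m : ℕ) : (m + m).choose 2 + m = 2 * (m * m) := by
  induction m with
  | zero => simp
  | succ m ih =>
    have : m + 1 + (m + 1) = (m + m) + 1 + 1 := by ring
    rw [this, Nat.choose_succ_succ' (m + m + 1) 1, Nat.choose_succ_succ' (m + m) 1]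
    simp only [Nat.choose_one_right] at *
    norm_num at *
    nlinarith

theorem main : ¬ Tendsto
        (fun n : ℕ =>
          (Nat.card {c : {e : Sym2 (Fin n) // ¬ e.IsDiag} → Fin 25 //
              ∀ S : Finset (Fin n), S.card = 4 →
                ((Finset.univ.filter
                    (fun e : {e : Sym2 (Fin n) // ¬ e.IsDiag} => e.1 ∈ S.sym2)).image c).card < 6} : ℝ)
            / (((25 : ℕ).choose (6 - 1) : ℝ) * (((6 : ℕ) : ℝ) - 1) ^ (n.choose 2)))
        atTop (𝓝 1) := by
  intro h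
  have h1 := h.eventually (gt_mem_nhds (show (1 : ℝ) < 2 by norm_num))
  obtain ⟨N, hN⟩ := eventually_atTop.1 h1
  set m := N + 10 with hm
  have h2 := hN (m + m) (by omega)
  have h3 := (Nat.cast_le (α := ℝ)).2 (card_ge m)
  rw [Nat.cast_pow, Nat.cast_ofNat] at h3
  have hc : ((25 : ℕ).choose (6 - 1) : ℝ) = 53130 := by norm_num [Nat.choose]
  rw [hc, div_lt_iff₀ (by norm_num)] at h2
  have h4 := lt_of_le_of_lt h3 h2
  have h5 : (25 : ℝ) ^ (m * m) = 5 ^ ((m + m).choose 2) * 5 ^ m := by
    rw [← pow_add, choose_add, pow_mul 5 2]; norm_num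
  have h6 : (5 : ℝ) ^ 10 ≤ 5 ^ m := pow_le_pow_right₀ (by norm_num) (by omega)
  rw [h5, show ((6 : ℕ) : ℝ) - 1 = 5 by norm_num] at h4
  norm_num at h6
  have h7 : (0 : ℝ) < 5 ^ ((m + m).choose 2) := by positivity
  nlinarith

end Pool.Agent.H497Z.Rainbow
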